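import Pool.Agent.T9h58.DG.Clt
import Pool.Agent.T9h58.KO.K7

/-!
# The Gaussian law for the digits of multiples of `p ^ N` and for the lowest digits of `p ^ n`

Let `F` be any function of the words of `w` digits in base `q` for which the sum of `F` over the words of a random
integer has positive limiting variance `σ²` per place; for instance `w = 1` and `F` the indicator function of a
digit, or the digit itself.  Consider the sum of `F` over the words at the places `t ≤ i < t + L` of a window, with
`L → ∞`.  Centred by `L` times the mean of `F` and divided by `σ √L`, it has asymptotically the standard normal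
distribution,

1. for the multiples `m p ^ N + y`, `1 ≤ m ≤ M`, for all `N ≤ A log M`, all `y` and all windows below `p ^ N`, where
   `p, q ≥ 2` are coprime and `A` is arbitrary;
2. if `q` is prime, for the powers `p ^ n`, `n₀ ≤ n < n₀ + M`, uniformly in `n₀`, and for all windows between the
   places `δ log M` and `(log M) ^ (1 + γ)`, for every `γ < 1 / 2` and every `δ > 0`.
3. In particular the number of the digits `b` of `p ^ n` in such a window is asymptotically normal with mean `L / q`
   and variance `L (q - 1) / q²`.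

Note that the `k` lowest digits of `p ^ n` are equidistributed by periodicity only for `k ≤ log_q M + O(1)`.

Proof.  Tests with a bounded number of words have errors `O(M ^ (-c))`: for 1. see
`Pool/Agent/Y933/KE/Pows.lean` (helper933, by the subspace theorem), for 2. this follows from the
exponential sums over powers modulo prime powers of `Pool/Agent/T9h58/KO` (Korobov's bound, from the mean value theorem
of Vinogradov), the errors being `O(exp (-(log M) ^ β))`; see also `Pool/Agent/N639/FH` (helper639).  All moments of the sum are then those of the sum for a random real number, and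
for this the central limit theorem is in `Pool/Agent/Y933/KD/Leb4.lean` and `Pool/Agent/N586/RT/Cl.lean`
(helper933, helper586).
-/

set_option autoImplicit false

namespace Pool.Agent.Results.MP_b08cb4_nt.GaussianLaw

open Finset Real

/-- the word of `w` digits of `Y` in base `q` whose highest digit stands at the place `i` (the place
of `q ^ i`), read as an integer between `0` and `q ^ w - 1` -/
def word (q w i Y : ℕ) : ℕ := Y / q ^ (i + 1 - w) % q ^ w

/-- the digit of `Y` in base `q` at the place `i` -/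
def digit (q i Y : ℕ) : ℕ := Y / q ^ i % q

/-- the sum of `F` over the words of `w` digits of `Y` whose highest digits stand at the places `t ≤ i < t + L` -/
noncomputable def wordSum (q w : ℕ) (F : ℕ → ℝ) (t L Y : ℕ) : ℝ := ∑ i ∈ Ico t (t + L), F (word q w i Y)

/-- the mean of `F` over the words of `w` digits -/
noncomputable def mean (q w : ℕ) (F : ℕ → ℝ) : ℝ := (∑ c ∈ range (q ^ w), F c) / (q : ℝ) ^ w

/-- the covariance of the values of `F` at the first `w` and at the last `w` digits of a random word of `w + h`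
digits -/
noncomputable def covariance (q w : ℕ) (F : ℕ → ℝ) (h : ℕ) : ℝ :=
  (∑ c ∈ range (q ^ (w + h)), (F (c / q ^ h) - mean q w F) * (F (c % q ^ w) - mean q w F)) / (q : ℝ) ^ (w + h)

/-- the limiting variance per place of the sum of `F` over the words of random digits -/
noncomputable def variance (q w : ℕ) (F : ℕ → ℝ) : ℝ :=
  covariance q w F 0 + 2 * ∑ h ∈ Ico 1 w, covariance q w F h

/-- the distribution function of the standard normal law -/
noncomputable def normal (a : ℝ) : ℝ := (ProbabilityTheory.gaussianReal 0 1).real (Set.Iic a)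

/-- the normalised sum is at most `a` -/
def AtMost (q w : ℕ) (F : ℕ → ℝ) (t L : ℕ) (a : ℝ) (Y : ℕ) : Prop :=
  wordSum q w F t L Y - L * mean q w F ≤ a * √(variance q w F * L)

open Classical in
/-- **The Gaussian law** for (1) the digits of the multiples `m p ^ N + y`, `1 ≤ m ≤ M`, (2), (3) the
lowest digits of the numbers `l p ^ n`, `0 ≤ n < M`, where `l` is not divisible by `q` (for instance
`l = p ^ n₀`). -/
theorem result (p q : ℕ) (hp : 2 ≤ p) (hq : 2 ≤ q) (hpq : p.Coprime q) (A γ a ε : ℝ) (hγ : 0 < γ)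
    (hγ2 : γ < 1 / 2) (hε : 0 < ε) :
    (∀ (w : ℕ) (F : ℕ → ℝ), 1 ≤ w → 0 < variance q w F →
      ∃ L₀ M₀ : ℕ, ∀ M : ℕ, M₀ ≤ M → ∀ N y : ℕ, (N : ℝ) ≤ A * log M →
      ∀ t L : ℕ, L₀ ≤ L → q ^ (t + L) ≤ p ^ N → w ≤ t + 1 →
      |(((Icc 1 M).filter fun m => AtMost q w F t L a (m * p ^ N + y)).card : ℝ) / M - normal a| ≤ ε) ∧
    (q.Prime → ∀ δ : ℝ, 0 < δ → ∀ (w : ℕ) (F : ℕ → ℝ), 1 ≤ w → 0 < variance q w F →
      ∃ L₀ M₀ : ℕ, ∀ M : ℕ, M₀ ≤ M → ∀ l : ℕ, ¬ q ∣ l →
      ∀ t L : ℕ, L₀ ≤ L → δ * log M + w ≤ t → ((t + L : ℕ) : ℝ) ≤ (log M) ^ (1 + γ) →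
      |(((range M).filter fun n => AtMost q w F t L a (l * p ^ n)).card : ℝ) / M - normal a| ≤ ε) ∧
    (q.Prime → ∀ δ : ℝ, 0 < δ → ∀ b < q, ∃ L₀ M₀ : ℕ, ∀ M : ℕ, M₀ ≤ M → ∀ l : ℕ, ¬ q ∣ l →
      ∀ t L : ℕ, L₀ ≤ L → δ * log M ≤ t → ((t + L : ℕ) : ℝ) ≤ (log M) ^ (1 + γ) →
      |(((range M).filter fun n => (((Ico t (t + L)).filter fun i => digit q i (l * p ^ n) = b).card : ℝ) ≤
        (L : ℝ) / q + a * √((q - 1) / (q : ℝ) ^ 2 * L)).card : ℝ) / M - normal a| ≤ ε) := by
  have main : q.Prime → ∀ δ : ℝ, 0 < δ → ∀ (w : ℕ) (F : ℕ → ℝ), 1 ≤ w → 0 < variance q w F →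
      ∃ L₀ M₀ : ℕ, ∀ M : ℕ, M₀ ≤ M → ∀ l : ℕ, ¬ q ∣ l →
      ∀ t L : ℕ, L₀ ≤ L → δ * log M + w ≤ t → ((t + L : ℕ) : ℝ) ≤ (log M) ^ (1 + γ) →
      |(((range M).filter fun n => AtMost q w F t L a (l * p ^ n)).card : ℝ) / M - normal a| ≤ ε := by
    intro hqp δ hδ w F hw hF
    obtain ⟨S, hT, hS⟩ := Pool.Agent.T9h58.KO.fam_pow2 hp hqp hpq hδ hγ hγ2
    obtain ⟨L₀, h0⟩ := Pool.Agent.T9h58.DG.clt_fam (by omega) (Pool.Agent.N639.FH.tg_half hT) hw
      (F := F) hF a hε
    obtain ⟨M₀, hM₀⟩ := Filter.eventually_atTop.1 (h0.and (Filter.eventually_ge_atTop 1))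
    refine ⟨L₀, M₀, fun M hM l hl t L hL htw htL => ?_⟩
    obtain ⟨h1, h4⟩ := hM₀ M hM
    have hlM : 0 ≤ log (M : ℝ) := Real.log_natCast_nonneg M
    have hwt : w ≤ t := by
      have : (w : ℝ) ≤ t := by nlinarith
      exact_mod_cast this
    have g2 := hS M l (t - w) (t + L) hl (by
      rw [Nat.cast_sub hwt]
      linarith) (by omega) htL
    have key := h1 ℕ (range M) (fun n => l * p ^ n) (t - w) t L hL (by
      push_cast at htL
      have : (0 : ℝ) ≤ t := Nat.cast_nonneg t
      linarith) (by omega) g2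
    rw [card_range] at key
    exact key
  refine ⟨?_, main, ?_⟩
  · intro w F hw hF
    obtain ⟨A', hA', S, hT, hS⟩ := Pool.Agent.N639.FH.fam_mul hp hq hpq A
    obtain ⟨L₀, h0⟩ := Pool.Agent.T9h58.DG.clt_fam (by omega) (Pool.Agent.N639.FH.tg_half hT) hw
      (F := F) hF a hε
    obtain ⟨M₀, hM₀⟩ := Filter.eventually_atTop.1 (h0.and (Filter.eventually_ge_atTop 1))
    refine ⟨L₀, M₀, fun M hM N y hN t L hL h hwt => ?_⟩
    obtain ⟨h1, h4⟩ := hM₀ M hM
    obtain ⟨g1, g2⟩ := hS M h4 N y (t + L) hN h
    have key := h1 ℕ (Icc 1 M) (fun m => m * p ^ N + y) 0 t L hL (by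
      push_cast at g1
      have : (0 : ℝ) ≤ t := Nat.cast_nonneg t
      linarith) (by omega) g2
    have hc : ((Icc 1 M).card : ℝ) = M := by rw [Nat.card_Icc]; simp
    rw [hc] at key
    exact key
  · intro hqp δ hδ b hb
    have hqR : (2 : ℝ) ≤ q := by exact_mod_cast hq
    set F : ℕ → ℝ := fun c => if c = b then 1 else 0 with hF
    have hmean : mean q 1 F = 1 / q := by
      unfold mean
      rw [pow_one, pow_one, hF, Finset.sum_ite_eq', if_pos (mem_range.2 hb)]
    have hvar : variance q 1 F = (q - 1) / (q : ℝ) ^ 2 := by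
      unfold variance covariance
      rw [hmean, Ico_self, sum_empty, mul_zero, add_zero, Nat.add_zero, pow_one, pow_one]
      have e : ∀ c ∈ range q, (F (c / q ^ 0) - 1 / q) * (F (c % q) - 1 / q) =
          (1 - 2 / (q : ℝ)) * (if c = b then 1 else 0) + 1 / (q : ℝ) ^ 2 := by
        intro c hc
        rw [pow_zero, Nat.div_one, Nat.mod_eq_of_lt (mem_range.1 hc), hF]
        simp only
        split_ifs
        · field_simp; ring
        · field_simp; ring
      rw [sum_congr rfl e, sum_add_distrib, ← mul_sum, Finset.sum_ite_eq', if_pos (mem_range.2 hb), sum_const,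
        card_range, nsmul_eq_mul]
      field_simp
      ring
    have hpos : 0 < variance q 1 F := by
      rw [hvar]
      have : (0 : ℝ) < q - 1 := by linarith
      positivity
    obtain ⟨L₀, M₀, h⟩ := main hqp (δ / 2) (by linarith) 1 F le_rfl hpos
    have hlog : Filter.Tendsto (fun M : ℕ => δ / 2 * log (M : ℝ)) Filter.atTop Filter.atTop :=
      (Real.tendsto_log_atTop.comp tendsto_natCast_atTop_atTop).const_mul_atTop (by linarith)
    obtain ⟨M₁, hM₁⟩ := Filter.eventually_atTop.1 (hlog.eventually_ge_atTop 1)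
    refine ⟨L₀, max M₀ M₁, fun M hM l hl t L hL ht htL => ?_⟩
    have h2 := hM₁ M ((le_max_right _ _).trans hM)
    have key := h M ((le_max_left _ _).trans hM) l hl t L hL (by push_cast; linarith) htL
    have e1 : ∀ i n, word q 1 i (l * p ^ n) = digit q i (l * p ^ n) := fun i n => by
      unfold word digit
      rw [Nat.add_sub_cancel, pow_one]
    have e3 : ((range M).filter fun n =>
        (((Ico t (t + L)).filter fun i => digit q i (l * p ^ n) = b).card : ℝ) ≤
        (L : ℝ) / q + a * √((q - 1) / (q : ℝ) ^ 2 * L)) =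
        (range M).filter fun n => AtMost q 1 F t L a (l * p ^ n) := by
      refine filter_congr fun n _ => ?_
      have e2 : (((Ico t (t + L)).filter fun i => digit q i (l * p ^ n) = b).card : ℝ) =
          ∑ i ∈ Ico t (t + L), F (word q 1 i (l * p ^ n)) := by
        rw [card_filter]
        push_cast
        exact sum_congr rfl fun i _ => by rw [e1]
      unfold AtMost wordSum
      rw [hmean, hvar, e2, mul_one_div]
      constructor
      · intro h5
        linarith
      · intro h5
        linarith
    rw [e3]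
    exact key

end Pool.Agent.Results.MP_b08cb4_nt.GaussianLaw
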