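import Pool.Agent.T9h42.JB.Unif

/-!
# The digits of several powers in several bases are asymptotically independent: a joint central limit theorem

Let `q_1, …, q_r` be bases and let `p_ρ ≥ 2` be coprime to `q_ρ`.  For each `ρ` let `F_ρ` be a function of the words of
`w_ρ` digits in base `q_ρ` whose sum over the words of a random integer has positive limiting variance per place, for
instance the indicator function of a digit, and consider the sum of `F_ρ` over the words at the places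
`t_ρ ≤ i < t_ρ + L_ρ` of a window.  Then the `r` normalised sums are asymptotically independent and normally
distributed, when all `L_ρ → ∞`,

1. if the `q_ρ` are primes and the pairs `(p_ρ, q_ρ)` are distinct, for the powers `p_ρ ^ n` in the bases `q_ρ`, with
   one random `n`, `n₀ ≤ n < n₀ + M`, uniformly in `n₀`, for all windows between the places `δ log M` and `A log M`, with
   `A` as large and `δ > 0` as small as we like.
2. In particular the numbers of the digits `b_1, …, b_r` in such windows of the expansions of `p_ρ ^ n` in the bases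
   `q_ρ` are asymptotically independent: for the same power `p ^ n` in the bases `q_1, …, q_r`, for the powers
   `p_1 ^ n, …, p_r ^ n` in the same base `q`, for instance `2 ^ n`, `4 ^ n` and `5 ^ n` in base 3, and for all
   powers `p ^ n` and bases `q` with `p ≠ q` in a finite set of primes together.
3. For the integers `m p_ρ ^ N_ρ + y_ρ` in pairwise coprime bases `q_ρ`, which need not be primes, with one random
   `m ≤ M`, for all `N_ρ ≤ A log M`, all `y_ρ` and all windows below `p_ρ ^ N_ρ`, where `A` is arbitrary.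

The lowest `k_1, …, k_r` digits of the `p_ρ ^ n` in the bases `q_ρ` are equidistributed by periodicity at most as long
as `q_1 ^ k_1 ⋯ q_r ^ k_r` is `O(M)`; `A` may be arbitrarily large here.  The lowest `k` digits of `2 ^ n` in base 3
determine those of `4 ^ n`, but the numbers of the digits in the windows are asymptotically independent.

Proof.  A bounded number of digits in all these expansions together is equidistributed with an error `O(M ^ (-c))`.
For 1. and 2. this follows from a bound for exponential sums `∑ e(∑ A_ρ p_ρ ^ n / q_ρ ^ ι_ρ)`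
(`Pool/Agent/T9h42/JB/VMain.lean`), which generalises those of `Pool/Agent/W301/TD` (method of Korobov).  Along
progressions with a difference `G` divisible by high powers of the `q_ρ` these are sums of polynomials.  Some of the
leading coefficients of these polynomials for `|R|` consecutive degrees in each class of `n` must have a large
denominator, since the numbers `(p_ρ ^ G - 1) / q ^ v` for the same `q` are almost constant when `G` varies, distinct
and not zero (`Pool/Agent/T9h42/JB/Nd.lean`, `VSum.lean`).  For 3. it follows from the subspace theorem: a sum of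
almost units is not close to an integer, unless it is one (`Pool/Agent/T9h42/JB/Far.lean`).  So all joint moments are
those of independent random real numbers, for which the central limit theorem is in `Pool/Agent/Y933/KD/Leb4.lean`
(helper933), and the theorem of Lévy applies.  Author: helper42.
-/

set_option autoImplicit false

namespace Pool.Agent.Results.MP_b08cb4_nt.JointGaussianLaw

open Finset Real

/-- the word of `w` digits of `Y` in base `q` whose highest digit stands at the place `i` (the place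
of `q ^ i`), read as an integer between `0` and `q ^ w - 1` -/
def word (q w i Y : ℕ) : ℕ := Y / q ^ (i + 1 - w) % q ^ w

/-- the digit of `Y` in base `q` at the place `i` -/
def digit (q i Y : ℕ) : ℕ := Y / q ^ i % q

/-- the sum of `F` over the words of `w` digits of `Y` whose highest digits stand at the places `t ≤ i < t + L` -/
noncomputable def wordSum (q w : ℕ) (F : ℕ → ℝ) (t L Y : ℕ) : ℝ := ∑ i ∈ Ico t (t + L), F (word q w i Y)

/-- the mean of `F` over the words of `w` digits -/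
noncomputable def mean (q w : ℕ) (F : ℕ → ℝ) : ℝ := (∑ c ∈ range (q ^ w), F c) / (q : ℝ) ^ w

/-- the covariance of the values of `F` at the first `w` and at the last `w` digits of a random word of `w + h`
digits -/
noncomputable def covariance (q w : ℕ) (F : ℕ → ℝ) (h : ℕ) : ℝ :=
  (∑ c ∈ range (q ^ (w + h)), (F (c / q ^ h) - mean q w F) * (F (c % q ^ w) - mean q w F)) / (q : ℝ) ^ (w + h)

/-- the limiting variance per place of the sum of `F` over the words of random digits -/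
noncomputable def variance (q w : ℕ) (F : ℕ → ℝ) : ℝ :=
  covariance q w F 0 + 2 * ∑ h ∈ Ico 1 w, covariance q w F h

/-- the distribution function of the standard normal law -/
noncomputable def normal (a : ℝ) : ℝ := (ProbabilityTheory.gaussianReal 0 1).real (Set.Iic a)

/-- the normalised sum is at most `a` -/
def AtMost (q w : ℕ) (F : ℕ → ℝ) (t L : ℕ) (a : ℝ) (Y : ℕ) : Prop :=
  wordSum q w F t L Y - L * mean q w F ≤ a * √(variance q w F * L)

open Classical in
/-- **The joint Gaussian law** for (1), (2) the lowest digits in the bases `q ρ` of the numbers `l_ρ p_ρ ^ n`,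
`0 ≤ n < M`, where `l_ρ` is not divisible by `q_ρ` (for instance `l_ρ = p_ρ ^ n₀`), (3) the digits in the bases `q ρ` of
the multiples `m p_ρ ^ N_ρ + y_ρ`, `1 ≤ m ≤ M`. -/
theorem result (r : ℕ) (p q : Fin r → ℕ) (hp : ∀ ρ, 2 ≤ p ρ) (hq : ∀ ρ, 2 ≤ q ρ)
    (hpq : ∀ ρ, (p ρ).Coprime (q ρ)) (A ε : ℝ) (hε : 0 < ε) (a : Fin r → ℝ) :
    ((∀ ρ, (q ρ).Prime) → (∀ ρ σ, ρ ≠ σ → (p ρ, q ρ) ≠ (p σ, q σ)) → ∀ δ : ℝ, 0 < δ →
      ∀ (w : Fin r → ℕ) (F : Fin r → ℕ → ℝ), (∀ ρ, 1 ≤ w ρ ∧ 0 < variance (q ρ) (w ρ) (F ρ)) →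
      ∃ L₀ M₀ : ℕ, ∀ M : ℕ, M₀ ≤ M → ∀ l t L : Fin r → ℕ,
      (∀ ρ, ¬ q ρ ∣ l ρ ∧ L₀ ≤ L ρ ∧ δ * log M + w ρ ≤ t ρ ∧ ((t ρ + L ρ : ℕ) : ℝ) ≤ A * log M) →
      |(((range M).filter fun n =>
          ∀ ρ, AtMost (q ρ) (w ρ) (F ρ) (t ρ) (L ρ) (a ρ) (l ρ * p ρ ^ n)).card : ℝ) / M -
        ∏ ρ, normal (a ρ)| ≤ ε) ∧
    ((∀ ρ, (q ρ).Prime) → (∀ ρ σ, ρ ≠ σ → (p ρ, q ρ) ≠ (p σ, q σ)) → ∀ δ : ℝ, 0 < δ →
      ∀ b : Fin r → ℕ, (∀ ρ, b ρ < q ρ) →
      ∃ L₀ M₀ : ℕ, ∀ M : ℕ, M₀ ≤ M → ∀ l t L : Fin r → ℕ,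
      (∀ ρ, ¬ q ρ ∣ l ρ ∧ L₀ ≤ L ρ ∧ δ * log M ≤ t ρ ∧ ((t ρ + L ρ : ℕ) : ℝ) ≤ A * log M) →
      |(((range M).filter fun n =>
          ∀ ρ, (((Ico (t ρ) (t ρ + L ρ)).filter fun i => digit (q ρ) i (l ρ * p ρ ^ n) = b ρ).card : ℝ) ≤
            (L ρ : ℝ) / q ρ + a ρ * √((q ρ - 1) / (q ρ : ℝ) ^ 2 * L ρ)).card : ℝ) / M -
        ∏ ρ, normal (a ρ)| ≤ ε) ∧
    ((∀ ρ σ, ρ ≠ σ → (q ρ).Coprime (q σ)) →
      ∀ (w : Fin r → ℕ) (F : Fin r → ℕ → ℝ), (∀ ρ, 1 ≤ w ρ ∧ 0 < variance (q ρ) (w ρ) (F ρ)) →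
      ∃ L₀ M₀ : ℕ, ∀ M : ℕ, M₀ ≤ M → ∀ N y t L : Fin r → ℕ,
      (∀ ρ, (N ρ : ℝ) ≤ A * log M ∧ L₀ ≤ L ρ ∧ w ρ ≤ t ρ + 1 ∧ q ρ ^ (t ρ + L ρ) ≤ p ρ ^ N ρ) →
      |(((Icc 1 M).filter fun m =>
          ∀ ρ, AtMost (q ρ) (w ρ) (F ρ) (t ρ) (L ρ) (a ρ) (m * p ρ ^ N ρ + y ρ)).card : ℝ) / M -
        ∏ ρ, normal (a ρ)| ≤ ε) := by
  have hdiv : (∀ ρ, (q ρ).Prime) → ∀ ρ, ¬ q ρ ∣ p ρ := fun hqp ρ h =>
    ((Nat.Prime.coprime_iff_not_dvd (hqp ρ)).1 (hpq ρ).symm) h
  have hne : (∀ ρ σ, ρ ≠ σ → (p ρ, q ρ) ≠ (p σ, q σ)) → ∀ ρ σ, ρ ≠ σ → q ρ = q σ → p ρ ≠ p σ :=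
    fun hd ρ σ h hqq hpp => hd ρ σ h (by rw [hqq, hpp])
  refine ⟨?_, ?_, ?_⟩
  · intro hqp hd δ hδ w F hF
    obtain ⟨L₀, M₀, h⟩ := Pool.Agent.T9h42.JB.joint_pow F hp hqp (hdiv hqp) (hne hd)
      (fun ρ => (hF ρ).1) (fun ρ => (hF ρ).2) a hε hδ A
    refine ⟨L₀, M₀, fun M hM l t L hy => ?_⟩
    exact h M hM l t L (fun ρ => (hy ρ).1) (fun ρ => (hy ρ).2.1)
      (fun ρ => by linarith [(hy ρ).2.2.1]) (fun ρ => (hy ρ).2.2.2) _ (fun n => Iff.rfl)
  · intro hqp hd δ hδ b hb
    have hqR : ∀ ρ, (2 : ℝ) ≤ q ρ := fun ρ => by exact_mod_cast hq ρ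
    set F : Fin r → ℕ → ℝ := fun ρ c => if c = b ρ then 1 else 0 with hF
    have hmean : ∀ ρ, mean (q ρ) 1 (F ρ) = 1 / q ρ := by
      intro ρ
      unfold mean
      rw [pow_one, pow_one, hF]
      simp only
      rw [Finset.sum_ite_eq', if_pos (mem_range.2 (hb ρ))]
    have hvar : ∀ ρ, variance (q ρ) 1 (F ρ) = (q ρ - 1) / (q ρ : ℝ) ^ 2 := by
      intro ρ
      unfold variance covariance
      rw [hmean, Ico_self, sum_empty, mul_zero, add_zero, Nat.add_zero, pow_one, pow_one]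
      have e : ∀ c ∈ range (q ρ), (F ρ (c / q ρ ^ 0) - 1 / q ρ) * (F ρ (c % q ρ) - 1 / q ρ) =
          (1 - 2 / (q ρ : ℝ)) * (if c = b ρ then 1 else 0) + 1 / (q ρ : ℝ) ^ 2 := by
        intro c hc
        rw [pow_zero, Nat.div_one, Nat.mod_eq_of_lt (mem_range.1 hc), hF]
        have : (q ρ : ℝ) ≠ 0 := by linarith [hqR ρ]
        simp only
        split_ifs
        · field_simp; ring
        · field_simp; ring
      rw [sum_congr rfl e, sum_add_distrib, ← mul_sum, Finset.sum_ite_eq',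
        if_pos (mem_range.2 (hb ρ)), sum_const, card_range, nsmul_eq_mul]
      have : (q ρ : ℝ) ≠ 0 := by linarith [hqR ρ]
      field_simp
      ring
    have hpos : ∀ ρ, 0 < variance (q ρ) 1 (F ρ) := by
      intro ρ
      rw [hvar]
      have h1 : (0 : ℝ) < q ρ - 1 := by linarith [hqR ρ]
      have h2 : (0 : ℝ) < q ρ := by linarith [hqR ρ]
      positivity
    obtain ⟨L₀, M₀, h⟩ := Pool.Agent.T9h42.JB.joint_pow (w := fun _ => 1) F hp hqp (hdiv hqp)
      (hne hd) (fun ρ => le_rfl) hpos a hε hδ A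
    refine ⟨L₀, M₀, fun M hM l t L hy => ?_⟩
    have key := h M hM l t L (fun ρ => (hy ρ).1) (fun ρ => (hy ρ).2.1)
      (fun ρ => by
        have := (hy ρ).2.2.1
        push_cast
        linarith) (fun ρ => (hy ρ).2.2.2)
      (fun n => ∀ ρ, AtMost (q ρ) 1 (F ρ) (t ρ) (L ρ) (a ρ) (l ρ * p ρ ^ n)) (fun n => Iff.rfl)
    have e3 : ((range M).filter fun n =>
          ∀ ρ, (((Ico (t ρ) (t ρ + L ρ)).filter fun i => digit (q ρ) i (l ρ * p ρ ^ n) = b ρ).card : ℝ) ≤
            (L ρ : ℝ) / q ρ + a ρ * √((q ρ - 1) / (q ρ : ℝ) ^ 2 * L ρ)) =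
        (range M).filter fun n => ∀ ρ, AtMost (q ρ) 1 (F ρ) (t ρ) (L ρ) (a ρ) (l ρ * p ρ ^ n) := by
      refine filter_congr fun n _ => forall_congr' fun ρ => ?_
      have e1 : ∀ i, word (q ρ) 1 i (l ρ * p ρ ^ n) = digit (q ρ) i (l ρ * p ρ ^ n) := fun i => by
        unfold word digit
        rw [Nat.add_sub_cancel, pow_one]
      have e2 : (((Ico (t ρ) (t ρ + L ρ)).filter fun i =>
          digit (q ρ) i (l ρ * p ρ ^ n) = b ρ).card : ℝ) =
          ∑ i ∈ Ico (t ρ) (t ρ + L ρ), F ρ (word (q ρ) 1 i (l ρ * p ρ ^ n)) := by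
        rw [card_filter]
        push_cast
        exact sum_congr rfl fun i _ => by rw [e1]
      unfold AtMost wordSum
      rw [hmean, hvar, e2, mul_one_div]
      constructor
      · intro h5
        linarith
      · intro h5
        linarith
    rw [e3]
    exact key
  · intro hqq w F hF
    obtain ⟨L₀, M₀, h⟩ := Pool.Agent.T9h42.JB.joint_mul F hp hq hpq hqq (fun ρ => (hF ρ).1)
      (fun ρ => (hF ρ).2) a hε A
    refine ⟨L₀, M₀, fun M hM N y t L hy => ?_⟩
    exact h M hM N y t L (fun ρ => (hy ρ).1) (fun ρ => (hy ρ).2.1)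
      (fun ρ => (hy ρ).2.2.1) (fun ρ => (hy ρ).2.2.2) _ (fun m => Iff.rfl)

end Pool.Agent.Results.MP_b08cb4_nt.JointGaussianLaw
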