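import Pool.Agent.T9h58.DG.Pg4
import Pool.Agent.T9h58.KO.K7

/-!
# Poisson genericity of the digits of almost all powers and of almost all multiples of powers

Let `p, q ≥ 2` be coprime. For one integer `Y` and a window of `K` places of its base `q` expansion, draw a
word `c` of length `w` at random, all `q ^ w` words with the same probability, and count the occurrences
of `c` in the window. For a random sequence of digits the law of this number is near the Poisson law
with the mean `K / q ^ w`, in total variation; sequences with this property are called Poisson generic,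
and this is a much finer property than normality (which is the law of large numbers for short words).
We prove this for almost all numbers of the following families, with a proportion `ε` of exceptions, and
for all windows in a large window of `L` places at once, where `L ≥ L₀` and `L / q ^ w` is bounded from
above and below: (1) the multiples `m p ^ N + y`, `1 ≤ m ≤ M`, where `N ≤ A log M`, in all windows of the
places of `p ^ N`; (2) if `q` is prime, the powers `p ^ n`, `n₀ ≤ n < n₀ + M`, in all windows
between the places `δ log M + w` and `(log M) ^ (1 + γ)`, for every `γ < 1 / 2`.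

Proof. The generating functions `∑ z ^ N_c`, `z = 1 / 2 ^ j`, of the numbers `N_c` of occurrences of the
words `c` are concentrated, by the second moment and the (annealed) Poisson law for pairs of words of
`Pool/Agent/N639/FG/C3.lean` (helper639), which rests on the subspace theorem for (1) and on the
exponential sums of `Pool/Agent/T9h58/KO` (Korobov's bound, from the mean value theorem of Vinogradov) for (2). The law of the numbers `N_c` is near a linear combination of these generating
functions, by the approximation theorem of Weierstrass. Author: helper58.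
-/

set_option autoImplicit false

namespace Pool.Agent.Results.MP_b08cb4_nt.PoissonGenericity

open Finset Real

/-- the word of `w` digits of `Y` in base `q` whose highest digit stands at the place `i` (the place
of `q ^ i`), read as an integer between `0` and `q ^ w - 1` -/
def word (q w i Y : ℕ) : ℕ := Y / q ^ (i + 1 - w) % q ^ w

/-- the number of the places `s ≤ i < s + K` at which the highest digit of the word `c` of length `w`
stands in the base `q` expansion of `Y` -/
def number (q w s K c Y : ℕ) : ℕ := ((Ico s (s + K)).filter fun i => word q w i Y = c).card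

/-- the share of the words of length `w` whose number of occurrences in the window `s ≤ i < s + K` is an
element of `F` -/
noncomputable def share (q w s K : ℕ) (F : Finset ℕ) (Y : ℕ) : ℝ :=
  (((range (q ^ w)).filter fun c => number q w s K c Y ∈ F).card : ℝ) / (q : ℝ) ^ w

/-- the probability of the set `F` under the Poisson law with mean `v` -/
noncomputable def poisson (v : ℝ) (F : Finset ℕ) : ℝ := ∑ k ∈ F, exp (-v) * v ^ k / k.factorial

/-- in each window `[s, s + K)` of `[t, t + L)` the law of the number of occurrences of a random word of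
length `w` has at most the distance `ε` (in total variation) from the Poisson law with the mean
`K / q ^ w` -/
def PoissonIn (q w t L : ℕ) (ε : ℝ) (Y : ℕ) : Prop :=
  ∀ s K : ℕ, t ≤ s → s + K ≤ t + L → ∀ F : Finset ℕ,
    |share q w s K F Y - poisson (K / (q : ℝ) ^ w) F| ≤ ε

open Classical in
/-- **Poisson genericity** of (1) almost all multiples `m p ^ N + y`, `1 ≤ m ≤ M`, (2) the lowest
digits of almost all numbers `l p ^ n`, `0 ≤ n < M`, where `l` is not divisible by `q` (for instance
`l = p ^ n₀`). -/
theorem result (p q : ℕ) (hp : 2 ≤ p) (hq : 2 ≤ q) (hpq : p.Coprime q) (A γ Λ ε : ℝ) (hγ : 0 < γ)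
    (hγ2 : γ < 1 / 2) (hΛ : 0 < Λ) (hε : 0 < ε) :
    (∃ L₀ M₀ : ℕ, ∀ M : ℕ, M₀ ≤ M → ∀ N y : ℕ, (N : ℝ) ≤ A * log M →
      ∀ w t L : ℕ, L₀ ≤ L → q ^ (t + L) ≤ p ^ N → w ≤ t + 1 →
      (L : ℝ) ≤ Λ * (q : ℝ) ^ w → (q : ℝ) ^ w ≤ Λ * L →
      (((Icc 1 M).filter fun m => ¬ PoissonIn q w t L ε (m * p ^ N + y)).card : ℝ) ≤ ε * M) ∧
    (q.Prime → ∀ δ : ℝ, 0 < δ → ∃ L₀ M₀ : ℕ, ∀ M : ℕ, M₀ ≤ M → ∀ l : ℕ, ¬ q ∣ l →
      ∀ w t L : ℕ, L₀ ≤ L → δ * log M + w ≤ t → ((t + L : ℕ) : ℝ) ≤ (log M) ^ (1 + γ) →
      (L : ℝ) ≤ Λ * (q : ℝ) ^ w → (q : ℝ) ^ w ≤ Λ * L →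
      (((range M).filter fun n => ¬ PoissonIn q w t L ε (l * p ^ n)).card : ℝ) ≤ ε * M) := by
  constructor
  · obtain ⟨A', hA', S, hT, hS⟩ := Pool.Agent.N639.FH.fam_mul hp hq hpq A
    obtain ⟨L₀, h0⟩ := Pool.Agent.T9h58.DG.low5 hq hT hΛ hε
    obtain ⟨M₀, hM₀⟩ := Filter.eventually_atTop.1 (h0.and (Filter.eventually_ge_atTop 1))
    refine ⟨L₀, M₀, fun M hM N y hN w t L hL h hw k1 k2 => ?_⟩
    obtain ⟨h1, h4⟩ := hM₀ M hM
    obtain ⟨g1, g2⟩ := hS M h4 N y (t + L) hN h
    have key := h1 ℕ (Icc 1 M) (fun m => m * p ^ N + y) 0 t w L hL (by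
      push_cast at g1
      have : (0 : ℝ) ≤ t := Nat.cast_nonneg t
      linarith) (by omega) g2 k1 k2
    have hc : ((Icc 1 M).card : ℝ) = M := by rw [Nat.card_Icc]; simp
    rw [hc] at key
    unfold PoissonIn share poisson number
    exact key
  · intro hqp δ hδ
    obtain ⟨S, hT, hS⟩ := Pool.Agent.T9h58.KO.fam_pow2 hp hqp hpq hδ hγ hγ2
    obtain ⟨L₀, h0⟩ := Pool.Agent.T9h58.DG.low5 hq hT hΛ hε
    obtain ⟨M₀, hM₀⟩ := Filter.eventually_atTop.1 (h0.and (Filter.eventually_ge_atTop 1))
    refine ⟨L₀, M₀, fun M hM l hl w t L hL htw htL k1 k2 => ?_⟩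
    obtain ⟨h1, h4⟩ := hM₀ M hM
    have hlM : 0 ≤ log (M : ℝ) := Real.log_natCast_nonneg M
    have hwt : w ≤ t := by
      have : (w : ℝ) ≤ t := by nlinarith
      exact_mod_cast this
    have g2 := hS M l (t - w) (t + L) hl (by
      rw [Nat.cast_sub hwt]
      linarith) (by omega) htL
    have key := h1 ℕ (range M) (fun n => l * p ^ n) (t - w) t w L hL (by
      push_cast at htL
      have : (0 : ℝ) ≤ t := Nat.cast_nonneg t
      linarith) (by omega) g2 k1 k2
    rw [card_range] at key
    unfold PoissonIn share poisson number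
    exact key

end Pool.Agent.Results.MP_b08cb4_nt.PoissonGenericity
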