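import Pool.Agent.T9h58.KO.K7

/-!
# The lowest `(log M) ^ (3 / 2 - ε)` digits of powers

Let `q` be a prime and `p ≥ 2` prime to `q`. The order of `p` modulo `q ^ k` is about `q ^ k`, so that the lowest `k`
digits of `p ^ n` in base `q`, `n < M`, are controlled by periodicity for `k ≤ log_q M` only. The results for almost all
`n < M` in the starting files (`LowestDigits`, `AllWordsOfAllLengths`, `PoissonLaw`) reach the lowest `A log M` digits.
We go up to `(log M) ^ (1 + δ)` digits, for every `δ < 1 / 2`, for the numbers `l p ^ n`, uniformly in `l` prime to `q`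
(for instance `l = p ^ n₀`):

1. for all `n < M` but `M / (log M) ^ K`, all words of all lengths `w` occur in all windows of `N` places between
   `δ₀ log M` and `(log M) ^ (1 + δ)` as often as expected: `N / q ^ w` times, with an error of at most
   `(log M) ^ η (1 + √(N / q ^ w))`;
2. for all `n < M` but `M / (log M) ^ K`, and for all `k` between `log M` and `(log M) ^ (1 + δ)`, all digits have the
   frequency `1 / q ± ε` among the lowest `k` digits of `l p ^ n`.

Proof. `Pool/Agent/T9h58/KO`: the exponential sums `∑ e (A p ^ n / q ^ t)`, `n < M`, are at most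
`M exp (-(log M) ^ β)` for `δ₀ log M ≤ t ≤ (log M) ^ (1 + δ)`, `2 δ + β < 1` (Korobov 1972; with shifts by `D x y`, where
`p ^ D = 1 + q ^ H u`, the phases become polynomials of degree `t / H` in `x y`). The bilinear sums are bounded by
Vinogradov's mean value theorem with good constants, `Pool/Agent/N586/AN/Vm.lean`, and the double Hölder inequality of
`Pool/Agent/Y957/VK` (helper957, helper901, helper309, helper93, helper586 and others); new are the estimates for
rational coefficients and the denominators of the coefficients of the truncated binomial series. The law follows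
from moments of high order, by the general theorem behind `AllWordsOfAllLengths` (`Pool/Agent/N639/FG`, helper639).
Author: helper58.
-/

set_option autoImplicit false

namespace Pool.Agent.Results.MP_b08cb4_nt.SuperlogWindows

open Finset Real

/-- the word of `w` digits of `Y` in base `q` whose highest digit stands at the place `i` (the place
of `q ^ i`), read as an integer between `0` and `q ^ w - 1` -/
def word (q w i Y : ℕ) : ℕ := Y / q ^ (i + 1 - w) % q ^ w

/-- every word `c` of every length `w` stands in every window `t ≤ i < t + N` (the places of the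
highest digit of the word) at `N / q ^ w` places, up to `E (1 + √(N / q ^ w))`; all digits of the words
stand at the places `lo, …, hi - 1` -/
def AllWords (q lo hi : ℕ) (E : ℝ) (Y : ℕ) : Prop :=
  ∀ w t N c : ℕ, lo + w ≤ t + 1 → t + N ≤ hi → c < q ^ w →
    |(((Ico t (t + N)).filter fun i => word q w i Y = c).card : ℝ) - N / (q : ℝ) ^ w| ≤
      E * (1 + √(N / (q : ℝ) ^ w))

/-- the number of the digits `b` among the lowest `k` digits of `Y` -/
def count (q b k Y : ℕ) : ℕ := ((range k).filter fun i => Y / q ^ i % q = b).card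

open Classical in
theorem part1 (p q : ℕ) (hp : 2 ≤ p) (hq : q.Prime) (hpq : p.Coprime q) (δ : ℝ) (hδ : 0 < δ)
    (hδ2 : δ < 1 / 2) (K : ℕ) (δ₀ η : ℝ) (hδ₀ : 0 < δ₀) (hη : 0 < η) :
    ∃ M₀ : ℕ, ∀ M : ℕ, M₀ ≤ M → ∀ l lo hi : ℕ, ¬ q ∣ l →
      δ₀ * log M ≤ lo → lo ≤ hi → (hi : ℝ) ≤ (log M) ^ (1 + δ) →
      (((range M).filter fun n => ¬ AllWords q lo hi ((log M) ^ η) (l * p ^ n)).card : ℝ) ≤
        M / (log M) ^ K := by
  obtain ⟨S, hT, hS⟩ := Pool.Agent.T9h58.KO.fam_pow2 hp hq hpq hδ₀ hδ hδ2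
  obtain ⟨M₀, hM₀⟩ := Filter.eventually_atTop.1
    ((Pool.Agent.N639.FH.low1 hq.two_le hT (by positivity : 0 < η / 2) K).and
      (Pool.Agent.T9h58.KO.hlog.eventually_ge_atTop 1))
  refine ⟨M₀, fun M hM l lo hi hl hlo hlh hhi => ?_⟩
  obtain ⟨h1, h2⟩ := hM₀ M hM
  have hL0 : (0 : ℝ) < log M := by linarith
  have key := h1 ℕ (range M) (fun n => l * p ^ n) lo hi hhi (hS M l lo hi hl hlo hlh hhi)
  rw [card_range] at key
  have e1 : ((log M) ^ (1 + δ)) ^ (η / 2) ≤ (log M) ^ η := by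
    rw [← Real.rpow_mul hL0.le]
    apply Real.rpow_le_rpow_of_exponent_le h2
    nlinarith
  have e2 : (((log M) ^ (1 + δ)) ^ K)⁻¹ ≤ ((log M) ^ K)⁻¹ := by
    apply inv_anti₀ (by positivity)
    apply pow_le_pow_left₀ hL0.le
    calc log M = (log M) ^ (1 : ℝ) := (Real.rpow_one _).symm
      _ ≤ (log M) ^ (1 + δ) := Real.rpow_le_rpow_of_exponent_le h2 (by linarith)
  refine le_trans ?_ (key.trans ?_)
  · have hsub : ((range M).filter fun n => ¬ AllWords q lo hi ((log M) ^ η) (l * p ^ n)) ⊆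
        ((range M).filter fun n => ¬ ∀ w t N' c : ℕ, lo + w ≤ t + 1 → t + N' ≤ hi → c < q ^ w →
        |(((Ico t (t + N')).filter fun i =>
          Pool.Agent.N639.FH.wo q w i (l * p ^ n) = c).card : ℝ) - N' / (q : ℝ) ^ w| ≤
        ((log M) ^ (1 + δ)) ^ (η / 2) * (1 + √(N' / (q : ℝ) ^ w))) := by
      intro m hm
      rw [mem_filter] at hm ⊢
      refine ⟨hm.1, fun hcon => hm.2 fun w t N' c k1 k2 k3 => ?_⟩
      refine (hcon w t N' c k1 k2 k3).trans ?_
      gcongr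
    exact_mod_cast card_le_card hsub
  · rw [div_eq_inv_mul]
    gcongr

lemma count_split (q b lo k Y : ℕ) (h : lo ≤ k) : (count q b k Y : ℝ) =
    count q b lo Y + (((Ico lo (lo + (k - lo))).filter fun i => word q 1 i Y = b).card : ℝ) := by
  have e : ∀ i, word q 1 i Y = Y / q ^ i % q := fun i => by
    unfold word
    rw [Nat.add_sub_cancel, pow_one]
  have h1 : lo + (k - lo) = k := by omega
  unfold count
  simp only [e]
  rw [h1, range_eq_Ico, range_eq_Ico, ← Nat.cast_add, ← card_union_of_disjoint]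
  · congr 2
    rw [← filter_union, Ico_union_Ico_eq_Ico (Nat.zero_le _) h]
  · apply disjoint_filter_filter
    exact Ico_disjoint_Ico_consecutive 0 lo k

open Classical in
/-- **The lowest `(log M) ^ (1 + δ)` digits of powers**, `δ < 1 / 2`: (1) all words of all lengths in all windows;
(2) the frequencies of the digits among the lowest `k` digits. -/
theorem result (p q : ℕ) (hp : 2 ≤ p) (hq : q.Prime) (hpq : p.Coprime q) (δ : ℝ) (hδ : 0 < δ)
    (hδ2 : δ < 1 / 2) (K : ℕ) :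
    (∀ δ₀ η : ℝ, 0 < δ₀ → 0 < η → ∃ M₀ : ℕ, ∀ M : ℕ, M₀ ≤ M → ∀ l lo hi : ℕ, ¬ q ∣ l →
      δ₀ * log M ≤ lo → lo ≤ hi → (hi : ℝ) ≤ (log M) ^ (1 + δ) →
      (((range M).filter fun n => ¬ AllWords q lo hi ((log M) ^ η) (l * p ^ n)).card : ℝ) ≤
        M / (log M) ^ K) ∧
    (∀ ε : ℝ, 0 < ε → ∃ M₀ : ℕ, ∀ M : ℕ, M₀ ≤ M → ∀ l : ℕ, ¬ q ∣ l →
      (((range M).filter fun n => ¬ ∀ k : ℕ, log M ≤ k → (k : ℝ) ≤ (log M) ^ (1 + δ) → ∀ b < q,
        |(count q b k (l * p ^ n) : ℝ) / k - 1 / q| ≤ ε).card : ℝ) ≤ M / (log M) ^ K) := by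
  refine ⟨fun δ₀ η hδ₀ hη => part1 p q hp hq hpq δ hδ hδ2 K δ₀ η hδ₀ hη, fun ε hε => ?_⟩
  obtain ⟨δ₀, hδ₀d⟩ : ∃ δ₀ : ℝ, δ₀ = min (ε / 4) (1 / 2) := ⟨_, rfl⟩
  have hδ₀ : 0 < δ₀ := by rw [hδ₀d]; exact lt_min (by positivity) (by norm_num)
  have hδ₀1 : δ₀ ≤ ε / 4 := by rw [hδ₀d]; exact min_le_left _ _
  have hδ₀2 : δ₀ ≤ 1 / 2 := by rw [hδ₀d]; exact min_le_right _ _
  obtain ⟨M₁, hM₁⟩ := part1 p q hp hq hpq δ hδ hδ2 K δ₀ (1 / 4) hδ₀ (by norm_num)
  have hlog := Pool.Agent.T9h58.KO.hlog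
  have f1 := Pool.Agent.T9h58.KO.ev_pow (a := 3 / 4) (b := 1) (c := ε / 4) (by norm_num)
    (by positivity) 1
  obtain ⟨M₂, hM₂⟩ := Filter.eventually_atTop.1 ((hlog.eventually f1).and
    ((hlog.eventually_ge_atTop 4).and (hlog.eventually_ge_atTop (4 / ε))))
  refine ⟨max M₁ M₂, fun M hM l hl => ?_⟩
  obtain ⟨g1, g2, g3⟩ := hM₂ M ((le_max_right _ _).trans hM)
  rw [Real.rpow_one, one_mul] at g1
  have hL0 : (0 : ℝ) < log M := by linarith
  have hq0 : (0 : ℝ) < q := by exact_mod_cast hq.pos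
  have hq1 : (1 : ℝ) ≤ q := by exact_mod_cast hq.one_lt.le
  obtain ⟨lo, hlod⟩ : ∃ lo : ℕ, lo = ⌈δ₀ * log M⌉₊ := ⟨_, rfl⟩
  have hlo1 : δ₀ * log M ≤ lo := by rw [hlod]; exact Nat.le_ceil _
  have hlo2 : (lo : ℝ) < δ₀ * log M + 1 := by
    rw [hlod]; exact Nat.ceil_lt_add_one (by positivity)
  obtain ⟨hi, hhid⟩ : ∃ hi : ℕ, hi = ⌊(log M) ^ (1 + δ)⌋₊ := ⟨_, rfl⟩
  have hhi1 : (hi : ℝ) ≤ (log M) ^ (1 + δ) := by rw [hhid]; exact Nat.floor_le (by positivity)
  have hloL : (lo : ℝ) ≤ log M := by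
    have : δ₀ * log M ≤ 1 / 2 * log M := mul_le_mul_of_nonneg_right hδ₀2 hL0.le
    linarith
  have hlohi : lo ≤ hi := by
    rw [hhid]
    apply Nat.le_floor
    refine hloL.trans ?_
    calc log M = (log M) ^ (1 : ℝ) := (Real.rpow_one _).symm
      _ ≤ (log M) ^ (1 + δ) := Real.rpow_le_rpow_of_exponent_le (by linarith) (by linarith)
  refine le_trans ?_ (hM₁ M ((le_max_left _ _).trans hM) l lo hi hl hlo1 hlohi hhi1)
  refine Nat.cast_le.2 (card_le_card fun n hn => ?_)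
  rw [mem_filter] at hn ⊢
  refine ⟨hn.1, fun hall => hn.2 fun k hk1 hk2 b hb => ?_⟩
  have hkL : (0 : ℝ) < k := by linarith
  have hlok : lo ≤ k := by
    have : (lo : ℝ) ≤ k := hloL.trans hk1
    exact_mod_cast this
  have hkhi : k ≤ hi := by
    rw [hhid]
    exact Nat.le_floor hk2
  have h1 := hall 1 lo (k - lo) b (by omega) (by omega) (by rw [pow_one]; exact hb)
  rw [pow_one] at h1
  have h2 := count_split q b lo k (l * p ^ n) hlok
  have h3 : (count q b lo (l * p ^ n) : ℝ) ≤ lo := by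
    have : count q b lo (l * p ^ n) ≤ lo := by
      unfold count
      exact (card_filter_le _ _).trans (le_of_eq (card_range lo))
    exact_mod_cast this
  have h4 : (0 : ℝ) ≤ count q b lo (l * p ^ n) := Nat.cast_nonneg _
  have hcast : ((k - lo : ℕ) : ℝ) = k - lo := Nat.cast_sub hlok
  rw [hcast] at h1
  -- the error
  have h5 : (log M) ^ (1 / 4 : ℝ) * (1 + √(((k : ℝ) - lo) / q)) ≤ ε / 2 * k := by
    have h6 : √(((k : ℝ) - lo) / q) ≤ √k := by
      apply Real.sqrt_le_sqrt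
      have : ((k : ℝ) - lo) / q ≤ (k - lo) := div_le_self (by
        have : (lo : ℝ) ≤ k := by exact_mod_cast hlok
        linarith) hq1
      have : (0 : ℝ) ≤ lo := Nat.cast_nonneg _
      linarith
    have h7 : (log M) ^ (1 / 4 : ℝ) ≤ (k : ℝ) ^ (1 / 4 : ℝ) :=
      Real.rpow_le_rpow hL0.le hk1 (by norm_num)
    have h8 : (1 : ℝ) ≤ √k := by
      rw [Real.one_le_sqrt]
      linarith
    have h9 : √(k : ℝ) = (k : ℝ) ^ (1 / 2 : ℝ) := Real.sqrt_eq_rpow _
    have h10 : (k : ℝ) ^ (1 / 4 : ℝ) * (k : ℝ) ^ (1 / 2 : ℝ) = (k : ℝ) ^ (3 / 4 : ℝ) := by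
      rw [← Real.rpow_add hkL]
      norm_num
    have h11 : (k : ℝ) ^ (3 / 4 : ℝ) ≤ ε / 4 * k := by
      have h12 : (log M) ^ (1 / 4 : ℝ) * (log M) ^ (3 / 4 : ℝ) = log M := by
        rw [← Real.rpow_add hL0]
        norm_num
      have h13 : (k : ℝ) ^ (1 / 4 : ℝ) * (k : ℝ) ^ (3 / 4 : ℝ) = k := by
        rw [← Real.rpow_add hkL]
        norm_num
      have h14 : 1 ≤ ε / 4 * (log M) ^ (1 / 4 : ℝ) := by
        have h15 : 0 < (log M) ^ (3 / 4 : ℝ) := by positivity
        have h16 : 1 * (log M) ^ (3 / 4 : ℝ) ≤ (ε / 4 * (log M) ^ (1 / 4 : ℝ)) * (log M) ^ (3 / 4 : ℝ) := by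
          rw [mul_assoc, h12, one_mul]
          exact g1
        exact le_of_mul_le_mul_right h16 h15
      have h17 : 1 ≤ ε / 4 * (k : ℝ) ^ (1 / 4 : ℝ) :=
        h14.trans (mul_le_mul_of_nonneg_left h7 (by positivity))
      have h18 : 0 ≤ (k : ℝ) ^ (3 / 4 : ℝ) := by positivity
      calc (k : ℝ) ^ (3 / 4 : ℝ) ≤ (ε / 4 * (k : ℝ) ^ (1 / 4 : ℝ)) * (k : ℝ) ^ (3 / 4 : ℝ) :=
            le_mul_of_one_le_left h18 h17
        _ = ε / 4 * k := by rw [mul_assoc, h13]
    calc (log M) ^ (1 / 4 : ℝ) * (1 + √(((k : ℝ) - lo) / q)) ≤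
          (k : ℝ) ^ (1 / 4 : ℝ) * (√k + √k) := by
          apply mul_le_mul h7 (by linarith) (by positivity) (by positivity)
      _ = 2 * ((k : ℝ) ^ (1 / 4 : ℝ) * (k : ℝ) ^ (1 / 2 : ℝ)) := by rw [h9]; ring
      _ = 2 * (k : ℝ) ^ (3 / 4 : ℝ) := by rw [h10]
      _ ≤ ε / 2 * k := by linarith
  have h6 : (lo : ℝ) ≤ ε / 2 * k := by
    have h7 : δ₀ * log M ≤ ε / 4 * k := mul_le_mul hδ₀1 hk1 hL0.le (by positivity)
    have h8 : 1 ≤ ε / 4 * k := by
      rw [div_le_iff₀ hε] at g3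
      have : log M * ε ≤ k * ε := mul_le_mul_of_nonneg_right hk1 hε.le
      linarith
    linarith
  have h7 := abs_le.1 (h1.trans h5)
  have hlo0 : (0 : ℝ) ≤ lo := Nat.cast_nonneg _
  have hdiv : (lo : ℝ) / q ≤ lo := div_le_self hlo0 hq1
  have hdiv0 : 0 ≤ (lo : ℝ) / q := by positivity
  have e1 : ((k : ℝ) - lo) / q = k / q - lo / q := by ring
  rw [e1] at h7
  have h8 : |(count q b k (l * p ^ n) : ℝ) - k / q| ≤ ε * k := by
    rw [h2, abs_le]
    constructor
    · linarith [h7.1]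
    · linarith [h7.2]
  have e2 : (count q b k (l * p ^ n) : ℝ) / k - 1 / q = ((count q b k (l * p ^ n) : ℝ) - k / q) / k := by
    field_simp
  rw [e2, abs_div, abs_of_pos hkL, div_le_iff₀ hkL]
  exact h8

end Pool.Agent.Results.MP_b08cb4_nt.SuperlogWindows
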